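import Pool.Agent.H23.PL.Targets

set_option autoImplicit false

open Finset Polynomial Pool.Agent.H23.PL

namespace Pool.Agent.H49.PLD

theorem al_mul_be : al * be = -1 := by
  unfold al be
  have := sq2
  linarith [this, (by ring : (1 + √2) * (1 - √2) = 1 - √2 * √2)]

theorem al_pos : 0 < al := by
  unfold al
  positivity

theorem be_ne : be ≠ 0 := by
  intro h
  have := al_mul_be
  rw [h, mul_zero] at this
  norm_num at this

/-- reciprocity over the complex numbers -/
theorem cyc_rec_C {m : ℕ} (hm : 1 < m) (x : ℂ) (hx : x ≠ 0) :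
    eval x (cyclotomic m ℂ) = x ^ m.totient * eval x⁻¹ (cyclotomic m ℂ) := by
  have hz := Complex.isPrimitiveRoot_exp m (by omega)
  have h1 : ∀ y : ℂ, eval y (cyclotomic m ℂ) = ∏ μ ∈ primitiveRoots m ℂ, (y - μ) := by
    intro y
    rw [cyclotomic_eq_prod_X_sub_primitiveRoots hz, eval_prod]
    exact Finset.prod_congr rfl fun μ _ => by rw [eval_sub, eval_X, eval_C]
  have hne : ∀ μ ∈ primitiveRoots m ℂ, μ ≠ 0 := fun μ hμ =>
    (isPrimitiveRoot_of_mem_primitiveRoots hμ).ne_zero (by omega)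
  have h2 : ∏ μ ∈ primitiveRoots m ℂ, (-μ) = 1 := by
    have h3 := h1 0
    rw [← coeff_zero_eq_eval_zero, cyclotomic_coeff_zero ℂ hm] at h3
    rw [h3]
    exact Finset.prod_congr rfl fun μ _ => by rw [zero_sub]
  have h4 : ∏ μ ∈ primitiveRoots m ℂ, (x - μ⁻¹) = ∏ μ ∈ primitiveRoots m ℂ, (x - μ) := by
    refine Finset.prod_nbij' (fun μ => μ⁻¹) (fun μ => μ⁻¹) ?_ ?_ ?_ ?_ ?_
    · intro μ hμ
      rw [mem_primitiveRoots (by omega)]
      exact (isPrimitiveRoot_of_mem_primitiveRoots hμ).inv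
    · intro μ hμ
      rw [mem_primitiveRoots (by omega)]
      exact (isPrimitiveRoot_of_mem_primitiveRoots hμ).inv
    · intro μ _
      exact inv_inv μ
    · intro μ _
      exact inv_inv μ
    · intro μ _
      rfl
  rw [h1, h1, ← Complex.card_primitiveRoots m, ← Finset.prod_const, ← Finset.prod_mul_distrib,
    ← h4, ← one_mul (∏ μ ∈ primitiveRoots m ℂ, (x - μ⁻¹)), ← h2, ← Finset.prod_mul_distrib]
  refine Finset.prod_congr rfl fun μ hμ => ?_
  have := hne μ hμ
  field_simp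
  ring

theorem cyc_rec {m : ℕ} (hm : 1 < m) (x : ℝ) (hx : x ≠ 0) :
    eval x (cyclotomic m ℝ) = x ^ m.totient * eval x⁻¹ (cyclotomic m ℝ) := by
  have h : ∀ y : ℝ, ((eval y (cyclotomic m ℝ) : ℝ) : ℂ) = eval (y : ℂ) (cyclotomic m ℂ) := by
    intro y
    rw [← map_cyclotomic m Complex.ofRealHom, eval_map]
    exact (eval₂_at_apply Complex.ofRealHom y).symm
  have h2 := cyc_rec_C hm (x : ℂ) (by exact_mod_cast hx)
  rw [← h, ← Complex.ofReal_inv, ← h] at h2
  exact_mod_cast h2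

/-- the homogeneous form of the cyclotomic polynomial -/
noncomputable def HH (n : ℕ) (x y : ℝ) : ℝ := y ^ n.totient * eval (x / y) (cyclotomic n ℝ)

theorem HH_mul {n q : ℕ} (hq : q.Prime) (h : ¬ q ∣ n) (x y : ℝ) :
    HH n x y * HH (n * q) x y = HH n (x ^ q) (y ^ q) := by
  have h1 : (n * q).totient = n.totient * (q - 1) := by
    rw [Nat.totient_mul ((Nat.Prime.coprime_iff_not_dvd hq).mpr h).symm, Nat.totient_prime hq]
  have h2 := congrArg (eval (x / y)) (cyclotomic_expand_eq_cyclotomic_mul hq h ℝ)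
  rw [expand_eval, eval_mul] at h2
  unfold HH
  rw [← div_pow, h2, h1, ← pow_mul]
  have h3 : q * n.totient = n.totient + n.totient * (q - 1) := by
    obtain ⟨k, rfl⟩ : ∃ k, q = k + 1 := ⟨q - 1, by have := hq.one_lt; omega⟩
    rw [Nat.add_sub_cancel]
    ring
  rw [h3, pow_add]
  ring

theorem HH_prod {m : ℕ} (S : Finset ℕ) : (∀ q ∈ S, q.Prime ∧ ¬ q ∣ m) → ∀ x y : ℝ,
    ∏ A ∈ S.powerset, HH (m * ∏ q ∈ A, q) x y = HH m (x ^ ∏ q ∈ S, q) (y ^ ∏ q ∈ S, q) := by
  classical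
  induction S using Finset.induction_on with
  | empty =>
    intro _ x y
    rw [Finset.powerset_empty, Finset.prod_singleton, Finset.prod_empty, mul_one, pow_one, pow_one]
  | insert q S hqS ih =>
    intro hS x y
    have hq := hS q (Finset.mem_insert_self q S)
    have hS' : ∀ r ∈ S, r.Prime ∧ ¬ r ∣ m := fun r hr => hS r (Finset.mem_insert_of_mem hr)
    rw [Finset.prod_powerset_insert hqS, ← Finset.prod_mul_distrib, Finset.prod_insert hqS,
      pow_mul, pow_mul, ← ih hS']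
    refine Finset.prod_congr rfl fun A hA => ?_
    have hAS := Finset.mem_powerset.mp hA
    have hqA : q ∉ A := fun h => hqS (hAS h)
    have hnd : ¬ q ∣ m * ∏ r ∈ A, r := by
      intro h
      rcases (Nat.Prime.dvd_mul hq.1).mp h with h | h
      · exact hq.2 h
      · obtain ⟨r, hr, hqr⟩ := (hq.1.prime.dvd_finset_prod_iff _).mp h
        have := (Nat.prime_dvd_prime_iff_eq hq.1 (hS' r (hAS hr)).1).mp hqr
        exact hqA (this ▸ hr)
    rw [Finset.prod_insert hqA, ← HH_mul hq.1 hnd x y]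
    congr 2
    ring

theorem pf_FMN (hLCY : T_LCY) : T_FMN := by
  intro u L hP m S hm hS
  obtain ⟨_, h1⟩ := hLCY u L hP
  have hodd : Odd (∏ q ∈ S, q) := by
    refine Finset.prod_induction _ Odd (fun a b => Odd.mul) odd_one fun q hq => (hS q hq).2.1
  have e1 : ∏ A ∈ S.powerset, (L (m * ∏ q ∈ A, q) : ℝ) =
      ∏ A ∈ S.powerset, HH (m * ∏ q ∈ A, q) al be := by
    refine Finset.prod_congr rfl fun A hA => ?_
    have hAS := Finset.mem_powerset.mp hA
    have hpos : 0 < ∏ q ∈ A, q := Finset.prod_pos fun q hq => (hS q (hAS hq)).1.pos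
    exact h1 _ (le_trans (by omega) (Nat.le_mul_of_pos_right m hpos))
  rw [e1, HH_prod S (fun q hq => ⟨(hS q hq).1, (hS q hq).2.2⟩)]
  set n := ∏ q ∈ S, q with hn
  have hal := al_pos
  have hbe := be_ne
  have e2 : al ^ n / be ^ n = -al ^ (2 * n) := by
    rw [div_eq_iff (pow_ne_zero n hbe)]
    have : al ^ (2 * n) = al ^ n * al ^ n := by rw [two_mul, pow_add]
    rw [this]
    have h3 : al ^ n * be ^ n = -1 := by
      rw [← mul_pow, al_mul_be, hodd.neg_one_pow]
    calc al ^ n = -(al ^ n * (al ^ n * be ^ n)) := by rw [h3]; ring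
      _ = -(al ^ n * al ^ n) * be ^ n := by ring
  have e3 : aeval ((al⁻¹) ^ (2 * n)) (PP m) = eval (-((al⁻¹) ^ (2 * n))) (cyclotomic m ℝ) := by
    unfold PP
    rw [aeval_comp, map_neg, aeval_X, aeval_def, eval₂_eq_eval_map, map_cyclotomic]
  have e4 : (-al ^ (2 * n))⁻¹ = -((al⁻¹) ^ (2 * n)) := by
    rw [inv_neg, inv_pow]
  have e5 : be ^ n * (-al ^ (2 * n)) = al ^ n := by
    rw [← e2]
    field_simp
  unfold HH
  rw [e2, cyc_rec (by omega) _ (neg_ne_zero.mpr (pow_ne_zero _ hal.ne')), e3, e4, ← mul_assoc,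
    ← mul_pow, e5, ← pow_mul, mul_comm n]

end Pool.Agent.H49.PLD
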