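import Pool.Agent.H23.PL.Targets

set_option autoImplicit false

open Finset Polynomial Pool.Agent.H23.PL

namespace Pool.Agent.H49.PLD

theorem pf_PTN (hCEL : T_CEL) (hDVT : T_DVT) : T_PTN := by
  classical
  intro t η y ρ X hη hη1 hy hρ hX hc
  obtain ⟨c1, c2, _⟩ := hCEL η hη hη1
  set g : (Fin t → ℕ) → (Fin t → ℕ) := fun q l => cel η (q l) with hg
  set Ac := X.image g with hAc
  set y' : ℝ := (1 + η) ^ t * y with hy'
  have h1e : (1 : ℝ) ≤ 1 + η := by linarith
  have hy'1 : 1 ≤ y' := by
    rw [hy']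
    exact one_le_mul_of_one_le_of_one_le (one_le_pow₀ h1e) hy
  obtain ⟨d1, d2⟩ := hDVT t y' hy'1
  have e1 : (X.card : ℝ) = ∑ a ∈ Ac, ((X.filter fun q => g q = a).card : ℝ) := by
    rw [hAc, Finset.card_eq_sum_card_image g X]
    push_cast
    rfl
  have e2 : ∀ a ∈ Ac, ((X.filter fun q => g q = a).card : ℝ) ≤
      ρ * ((Fintype.piFinset fun l => Cl η (a l)).card : ℝ) := by
    intro a _
    have h := hc a
    have h3 : (X.filter fun q => g q = a) = X.filter fun q => ∀ l, cel η (q l) = a l := by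
      refine Finset.filter_congr fun q _ => ?_
      rw [hg]
      exact funext_iff
    rw [h3, Fintype.card_piFinset]
    push_cast
    exact h
  have e3 : (X.card : ℝ) ≤
      ρ * ((Ac.biUnion fun a => Fintype.piFinset fun l => Cl η (a l)).card : ℝ) := by
    rw [e1]
    refine (Finset.sum_le_sum e2).trans (le_of_eq ?_)
    rw [← Finset.mul_sum, Finset.card_biUnion]
    · push_cast
      rfl
    · intro a _ b _ hab
      rw [Function.onFun, Finset.disjoint_left]
      intro v hv hw
      apply hab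
      funext l
      have h1 := (Finset.mem_filter.mp ((Fintype.mem_piFinset.mp hv) l)).2
      have h2 := (Finset.mem_filter.mp ((Fintype.mem_piFinset.mp hw) l)).2
      exact h1.symm.trans h2
  have e4 : ((Ac.biUnion fun a => Fintype.piFinset fun l => Cl η (a l)).card : ℝ) ≤
      y' * (1 + Real.log y') ^ t := by
    refine le_trans ?_ d2
    rw [← Set.ncard_coe_finset]
    refine Nat.cast_le.mpr (Set.ncard_le_ncard ?_ d1)
    intro v hv
    rw [Finset.mem_coe, Finset.mem_biUnion] at hv
    obtain ⟨a, ha, hv⟩ := hv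
    obtain ⟨q, hq, rfl⟩ := Finset.mem_image.mp ha
    obtain ⟨q1, q2⟩ := hX q hq
    have hv' := Fintype.mem_piFinset.mp hv
    have hv1 : ∀ l, 1 ≤ v l := fun l =>
      (Finset.mem_Icc.mp (Finset.mem_filter.mp (hv' l)).1).1
    refine ⟨hv1, ?_⟩
    have hlt : ∀ l, (v l : ℝ) ≤ q l * (1 + η) := fun l =>
      (c2 _ (q l) (v l) (c1 (q l) (q1 l)) (hv' l)).le
    calc ((∏ l, v l : ℕ) : ℝ) = ∏ l, (v l : ℝ) := by push_cast; rfl
      _ ≤ ∏ l, ((q l : ℝ) * (1 + η)) :=
        Finset.prod_le_prod (fun l _ => Nat.cast_nonneg _) fun l _ => hlt l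
      _ = (∏ l, (q l : ℝ)) * (1 + η) ^ t := by
        rw [Finset.prod_mul_distrib, Finset.prod_const, Finset.card_univ, Fintype.card_fin]
      _ ≤ y * (1 + η) ^ t := by
        refine mul_le_mul_of_nonneg_right ?_ (by positivity)
        have := q2
        push_cast at this
        exact this
      _ = y' := by rw [hy', mul_comm]
  refine e3.trans ?_
  have := mul_le_mul_of_nonneg_left e4 hρ
  refine this.trans (le_of_eq ?_)
  rw [hy']

end Pool.Agent.H49.PLD
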